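import Mathlib
import Pool.Agent.H19.SlowOsc

set_option autoImplicit false

namespace Pool.Agent.Results.MP_08c285_gt.Regular

open Set Cardinal Pool.Agent.H19.SlowOsc
open scoped Pointwise

universe u

/-- The entourages of the ballean `(G, E_κ)`, `κ = |G|`. -/
def Ent (G : Type u) [Group G] : Set (Set (G × G)) :=
  {E | ∃ A : Set G, #A < #G ∧ 1 ∈ A ∧ A = A⁻¹ ∧ E ⊆ {p | ∃ a ∈ A, p.2 = p.1 * a}}

/-- `E[S]`. -/
def img {G : Type u} (E : Set (G × G)) (S : Set G) : Set G := {y | ∃ x ∈ S, (x, y) ∈ E}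

/-- Asymptotically disjoint sets. -/
def AsDisjoint {G : Type u} [Group G] (P Q : Set G) : Prop :=
  ∀ E ∈ Ent G, #(img E P ∩ img E Q : Set G) < #G

/-- `U` is an asymptotic neighbourhood of `P`. -/
def AsNhd {G : Type u} [Group G] (U P : Set G) : Prop :=
  ∀ E ∈ Ent G, #(img E P \ U : Set G) < #G

/-- The ballean `(G, E_κ)` is normal. -/
def Normal (G : Type u) [Group G] : Prop :=
  ∀ P Q : Set G, AsDisjoint P Q → ∃ U V, AsNhd U P ∧ AsNhd V Q ∧ AsDisjoint U V

variable {G : Type u} [Group G]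

lemma closure_lt (h0 : ℵ₀ < #G) {S : Set G} (h : #S < #G) : #(Subgroup.closure S) < #G := by
  rcases S.eq_empty_or_nonempty with rfl | hS
  · simpa using one_lt_aleph0.trans h0
  have := hS.to_subtype
  rw [show Subgroup.closure S = (FreeGroup.lift (Subtype.val : S → G)).range by
    rw [FreeGroup.range_lift_eq_closure, Subtype.range_coe]]
  exact (mk_range_le.trans_eq (mk_freeGroup S)).trans_lt (max_lt h h0)

lemma Iic_lt (h0 : ℵ₀ < #G) (i : (#G).ord.ToType) : #(Iic i) < #G := by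
  rw [← Iio_insert]
  exact mk_insert_le.trans_lt (add_lt_of_lt h0.le (mk_Iio_toType_ord_lt i) (one_lt_aleph0.trans h0))

lemma indep (h0 : ℵ₀ < #G) (N : (#G).ord.ToType → Set G) (hN : ∀ i, #(N i) < #G) :
    ∃ e : (#G).ord.ToType → G, ∀ i, e i ∉ Subgroup.closure (N i ∪ e '' Iio i) := by
  have key : ∀ (i : (#G).ord.ToType) (f : Iio i → G),
      ∃ x, x ∉ Subgroup.closure (N i ∪ range f) := by
    intro i f
    obtain ⟨x, -, hx⟩ := pick (K := univ) ((closure_lt h0 ((mk_union_le _ _).trans_lt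
      (add_lt_of_lt h0.le (hN i) ((mk_range_le (f := f)).trans_lt
        (mk_Iio_toType_ord_lt i))))).trans_eq mk_univ.symm)
    exact ⟨x, hx⟩
  choose F hF using key
  let e : (#G).ord.ToType → G := wellFounded_lt.fix fun i ih => F i fun j => ih j.1 j.2
  refine ⟨e, fun i => ?_⟩
  have h1 : e i = F i fun j => e j.1 := wellFounded_lt.fix_eq _ i
  rw [image_eq_range]
  exact h1 ▸ hF i _

lemma unif (h0 : ℵ₀ < #G) (hs : ¬ (#G).IsRegular) {U P : Set G} (h : AsNhd U P) :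
    ∃ μ < #G, ∀ a, #(((· * a) '' P) \ U : Set G) ≤ μ := by
  by_contra! h1
  obtain ⟨s, hs1, hs2⟩ := Order.exists_cof_eq (α := (#G).ord.ToType)
  have h2 : #s < #G := by
    rw [hs2, Ordinal.cof_toType]
    exact lt_of_not_ge fun h => hs ⟨h0.le, h⟩
  choose a ha using fun i : s => h1 _ (Iic_lt h0 i.1)
  let A : Set G := insert 1 (range a ∪ (range a)⁻¹)
  have hA : #A < #G := mk_insert_le.trans_lt (add_lt_of_lt h0.le ((mk_union_le _ _).trans_lt
    (add_lt_of_lt h0.le (mk_range_le.trans_lt h2) ((mk_preimage_of_injective _ _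
      inv_injective).trans_lt (mk_range_le.trans_lt h2)))) (one_lt_aleph0.trans h0))
  have h3 := h _ ⟨A, hA, mem_insert _ _, by simp [A, union_comm], subset_rfl⟩
  set μ := #(img {p | ∃ a ∈ A, p.2 = p.1 * a} P \ U : Set G)
  have h4 : ∀ i : s, #(Iic i.1) ≤ μ := fun i => (ha i).le.trans (mk_le_mk_of_subset (by
    rintro _ ⟨⟨x, hx, rfl⟩, h⟩
    exact ⟨⟨x, hx, a i, by simp [A], rfl⟩, h⟩))
  have h5 : (univ : Set (#G).ord.ToType) ⊆ ⋃ i : s, Iic i.1 := fun j _ =>
    let ⟨i, hi, h⟩ := hs1 j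
    mem_iUnion.mpr ⟨⟨i, hi⟩, h⟩
  have h6 := (mk_le_mk_of_subset h5).trans ((mk_iUnion_le _).trans
    (mul_le_mul' le_rfl (ciSup_le' h4)))
  rw [mk_univ, mk_ord_toType] at h6
  exact h6.not_gt (mul_lt_of_lt h0.le h2 h3)

/-- If the ballean `(G, E_κ)` of an infinite group `G` is normal, then `κ = |G|` is regular. -/
theorem result (G : Type u) [Group G] [Infinite G] (hG : Normal G) : (#G).IsRegular := by
  by_contra hs
  have h0 : ℵ₀ < #G := lt_of_le_of_ne (aleph0_le_mk G) fun h => hs (h ▸ isRegular_aleph0)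
  obtain ⟨e, he⟩ := indep h0 (fun _ => ∅) fun _ => by simpa using aleph0_pos.trans h0
  simp only [empty_union] at he
  obtain ⟨γ⟩ : Nonempty (G ⊕ G ≃ (#G).ord.ToType) := by rw [← Cardinal.eq]; simp
  obtain ⟨β⟩ : Nonempty ((#G).ord.ToType ≃ G × G) := by rw [← Cardinal.eq]; simp
  let s : (#G).ord.ToType → G := fun i => e (γ (.inl (β i).1))
  let t : (#G).ord.ToType → G := fun i => e (γ (.inr (β i).2))
  have e1 : ∀ {i j}, j < i → e j ∈ Subgroup.closure (e '' Iio i) := fun h =>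
    Subgroup.subset_closure ⟨_, h, rfl⟩
  have e2 : Function.Injective e := fun i j h => by
    rcases lt_trichotomy i j with h1 | h1 | h1
    exacts [(he j (h ▸ e1 h1)).elim, h1, (he i (h ▸ e1 h1)).elim]
  have e3 : ∀ a b c d, e a * e b = e c * e d → a ≠ b → c ≠ d → max a b < max c d → False := by
    intro a b c d h h1 h2 h3
    rcases h2.lt_or_gt with h4 | h4
    · rw [max_eq_right h4.le, max_lt_iff] at h3
      exact he d (eq_inv_mul_of_mul_eq h.symm ▸
        mul_mem (inv_mem (e1 h4)) (mul_mem (e1 h3.1) (e1 h3.2)))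
    · rw [max_eq_left h4.le, max_lt_iff] at h3
      exact he c (eq_mul_inv_of_mul_eq h.symm ▸
        mul_mem (mul_mem (e1 h3.1) (e1 h3.2)) (inv_mem (e1 h4)))
  have sidon : ∀ i j, s i * t i = s j * t j → i = j := by
    intro i j h
    have n1 : ∀ a b, γ (.inl a) ≠ γ (.inr b) := fun a b => by simp
    have h1 := le_antisymm (not_lt.mp (e3 _ _ _ _ h.symm (n1 _ _) (n1 _ _)))
      (not_lt.mp (e3 _ _ _ _ h (n1 _ _) (n1 _ _)))
    have h2 : (β i).1 = (β j).1 ∨ (β i).2 = (β j).2 := by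
      rcases max_choice (γ (.inl (β i).1)) (γ (.inr (β i).2)) with h2 | h2 <;>
      rcases max_choice (γ (.inl (β j).1)) (γ (.inr (β j).2)) with h3 | h3 <;>
      rw [h2, h3] at h1 <;> simp_all
    refine β.injective (Prod.ext ?_ ?_) <;> rcases h2 with h2 | h2
    · exact h2
    · exact Sum.inl_injective (γ.injective
        (e2 (mul_right_cancel (h.trans (by simp only [t, h2]; rfl)))))
    · exact Sum.inr_injective (γ.injective
        (e2 (mul_left_cancel (h.trans (by simp only [s, h2]; rfl)))))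
    · exact h2
  obtain ⟨z, hz⟩ := indep h0 (fun i => s '' Iic i ∪ t '' Iic i) fun i =>
    un_lt h0.le (mk_image_le.trans_lt (Iic_lt h0 i)) (mk_image_le.trans_lt (Iic_lt h0 i))
  let H := fun i => Subgroup.closure (s '' Iic i ∪ t '' Iic i ∪ z '' Iio i)
  have z1 : ∀ {i j}, j < i → z j ∈ H i := fun h => Subgroup.subset_closure (Or.inr ⟨_, h, rfl⟩)
  have z2 : ∀ {i j}, j ≤ i → s j ∈ H i := fun h =>
    Subgroup.subset_closure (Or.inl (Or.inl ⟨_, h, rfl⟩))
  have z3 : ∀ {i j}, j ≤ i → t j ∈ H i := fun h =>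
    Subgroup.subset_closure (Or.inl (Or.inr ⟨_, h, rfl⟩))
  let q := fun i => z i * s i * t i
  have q1 : ∀ {i j}, j < i → q j ∈ H i := fun h => mul_mem (mul_mem (z1 h) (z2 h.le)) (z3 h.le)
  have q2 : ∀ i, q i ∉ H i := fun i h => hz i
    (((H i).mul_mem_cancel_right (z2 le_rfl)).mp (((H i).mul_mem_cancel_right (z3 le_rfl)).mp h))
  have inj : ∀ f : (#G).ord.ToType → G, (∀ {i j}, j < i → f j ∈ H i) → (∀ i, f i ∉ H i) →
      Function.Injective f := fun f h1 h2 i j h => by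
    rcases lt_trichotomy i j with h3 | h3 | h3
    exacts [(h2 j (h ▸ h1 h3)).elim, h3, (h2 i (h ▸ h1 h3)).elim]
  have hJ : ∀ h, {j | ∃ i, z i * h = q j}.Finite := by
    intro h
    have a1 : {j | z j * h = q j}.Subsingleton := fun i hi j hj => sidon i j (by
      rw [← mul_left_cancel (hi.trans (mul_assoc _ _ _)), ← mul_left_cancel
        (hj.trans (mul_assoc _ _ _))])
    have a2 : ∀ j j', j < j' → (∃ i < j, z i * h = q j) → ¬ ∃ i < j', z i * h = q j' := by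
      rintro j j' h1 ⟨i, hi, h2⟩ ⟨i', hi', h3⟩
      exact q2 j' (h3 ▸ mul_mem (z1 hi')
        (((H j').mul_mem_cancel_left (z1 (hi.trans h1))).mp (h2 ▸ q1 h1)))
    have a3 : ∀ i i', i < i' → (∃ j < i, z i * h = q j) → ¬ ∃ j < i', z i' * h = q j := by
      rintro i i' h1 ⟨j, hj, h2⟩ ⟨j', hj', h3⟩
      exact hz i' (((H i').mul_mem_cancel_right (((H i').mul_mem_cancel_left (z1 h1)).mp
        (h2 ▸ q1 (hj.trans h1)))).mp (h3 ▸ q1 hj'))
    have b2 : {j | ∃ i < j, z i * h = q j}.Subsingleton := fun j hj j' hj' =>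
      le_antisymm (not_lt.mp fun h => a2 _ _ h hj' hj) (not_lt.mp fun h => a2 _ _ h hj hj')
    have b3 : {j | ∃ i > j, z i * h = q j}.Subsingleton := by
      rintro j ⟨i, hi, h1⟩ j' ⟨i', hi', h2⟩
      obtain rfl : i = i' := le_antisymm (not_lt.mp fun h => a3 _ _ h ⟨_, hi', h2⟩ ⟨_, hi, h1⟩)
        (not_lt.mp fun h => a3 _ _ h ⟨_, hi, h1⟩ ⟨_, hi', h2⟩)
      exact inj q q1 q2 (h1.symm.trans h2)
    refine ((a1.finite.union b2.finite).union b3.finite).subset ?_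
    rintro j ⟨i, hi⟩
    rcases lt_trichotomy i j with h | rfl | h
    exacts [Or.inl (Or.inr ⟨i, h, hi⟩), Or.inl (Or.inl hi), Or.inr ⟨i, h, hi⟩]
  obtain ⟨U, V, hU, hV, hUV⟩ := hG (range z) (range q) (by
    rintro E ⟨A, hA, -, -, hE⟩
    have h1 : ℵ₀ ≤ max #A ℵ₀ := le_max_right _ _
    refine (mk_le_mk_of_subset ?_).trans_lt ((biun_le h1 (le_max_left _ _)
      (fun a => ⋃ b ∈ A, (fun j => q j * b) '' {j | ∃ i, z i * (a * b⁻¹) = q j}) fun a _ =>
        biun_le h1 (le_max_left _ _) _ fun b _ => (lt_aleph0_iff_set_finite.mpr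
          ((hJ _).image _)).le.trans h1).trans_lt (max_lt hA h0))
    rintro y ⟨⟨_, ⟨i, rfl⟩, h2⟩, ⟨_, ⟨j, rfl⟩, h3⟩⟩
    obtain ⟨a, ha, h2⟩ := hE h2
    obtain ⟨b, hb, h3⟩ := hE h3
    refine mem_biUnion ha (mem_biUnion hb ⟨j, ⟨i, ?_⟩, h3.symm⟩)
    rw [← mul_assoc, mul_inv_eq_iff_eq_mul]
    exact h2.symm.trans h3)
  obtain ⟨μ₁, h1, hU⟩ := unif h0 hs hU
  obtain ⟨μ₂, h2, hV⟩ := unif h0 hs hV
  have h3 : #(U ∩ V : Set G) < #G := (mk_le_mk_of_subset fun x hx =>
    And.intro ⟨x, hx.1, 1, rfl, by simp⟩ ⟨x, hx.2, 1, rfl, by simp⟩).trans_lt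
      (hUV _ ⟨{1}, by simpa using one_lt_aleph0.trans h0, rfl, by simp, subset_rfl⟩)
  set μ := max (max μ₁ μ₂) (max #(U ∩ V : Set G) ℵ₀)
  have h4 : μ < #G := max_lt (max_lt h1 h2) (max_lt h3 h0)
  have h5 : ℵ₀ ≤ μ := (le_max_right _ _).trans (le_max_right _ _)
  have h6 : Order.succ μ < #G := lt_of_le_of_ne (Order.succ_le_of_lt h4)
    fun h => hs (h ▸ isRegular_succ h5)
  have h7 : μ ≤ Order.succ μ := Order.le_succ μ
  obtain ⟨S, hS⟩ := le_mk_iff_exists_set.mp h6.le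
  let m : G → G → G := fun a b => z (β.symm (a, b)) * e (γ (.inl a))
  have m1 : ∀ a, Function.Injective (m a) := fun a b b' h => by
    simpa using inj z z1 hz (mul_right_cancel h)
  have m2 : ∀ a b, m a b = q (β.symm (a, b)) * (e (γ (.inr b)))⁻¹ := fun a b => by
    simp [m, q, s, t]
  obtain ⟨b, -, hb⟩ := pick (K := univ) ((biun_le (h5.trans h7) hS.le
    (fun a => m a ⁻¹' (((· * e (γ (.inl a))) '' range z) \ U ∪ U ∩ V)) fun a _ =>
      (mk_preimage_of_injective _ _ (m1 a)).trans ((un_le h5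
        ((hU _).trans ((le_max_left _ _).trans (le_max_left _ _)))
        ((le_max_left _ _).trans (le_max_right _ _))).trans h7)).trans_lt
          (h6.trans_eq mk_univ.symm))
  have h8 : S ⊆ (m · b) ⁻¹' (((· * (e (γ (.inr b)))⁻¹) '' range q) \ V) := fun a ha =>
    ⟨⟨_, ⟨_, rfl⟩, (m2 a b).symm⟩, fun h => hb (mem_biUnion ha (by
      by_cases h9 : m a b ∈ U
      exacts [Or.inr ⟨h9, h⟩, Or.inl ⟨⟨_, ⟨_, rfl⟩, rfl⟩, h9⟩]))⟩
  have h9 := (mk_le_mk_of_subset h8).trans ((mk_preimage_of_injective _ _ fun a a' h => by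
    simp only [m2] at h
    simpa using inj q q1 q2 (mul_right_cancel h)).trans (hV _))
  rw [hS] at h9
  exact (Order.lt_succ μ).not_ge (h9.trans ((le_max_right _ _).trans (le_max_left _ _)))

end Pool.Agent.Results.MP_08c285_gt.Regular
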